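import Pool.Agent.MP_d5eec5_gt.H77.GBasic

/-! Existence of optimal placements, rotation and reversal. -/

set_option autoImplicit false

namespace Pool.Agent.MP_d5eec5_gt.H77

open Pool.Agent.MP_d5eec5_gt.H48 Finset

theorem g0_fit {τ η : Fin 3} (w : Wd) (h : τ ≠ η) : ∃ p, Fit τ η w p := by
  obtain ⟨m, hm⟩ : ∃ m, m = w.length := ⟨_, rfl⟩
  let c : ℕ → ℕ := fun k =>
    if k = 0 then τ.val else if k = m + 1 then η.val else (w.getD (k - 1) 0).val
  let f : ℕ → ℚ := fun k => if k = m + 1 then 0 else (k : ℚ) / (m + 2)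
  have hf : ∀ k ≤ m + 1, 0 ≤ f k ∧ f k < 1 := by
    intro k hk
    simp only [f]
    split_ifs
    · norm_num
    · refine ⟨by positivity, ?_⟩
      rw [div_lt_one (by positivity)]
      exact_mod_cast (by omega : k < m + 2)
  refine ⟨fun k => c k + f k, ?_, ?_, ?_, ?_⟩
  · simp [c, f]
  · simp [c, f, ← hm]
  · intro j x hx
    have hj : j < m := by
      rw [hm]
      exact (List.getElem?_eq_some_iff.1 hx).1
    have e1 : c (j + 1) = x.val := by
      simp only [c, Nat.add_eq_zero_iff, one_ne_zero, and_false, if_false, Nat.add_sub_cancel,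
        if_neg (show j + 1 ≠ m + 1 by omega), List.getD_eq_getElem?_getD, hx, Option.getD_some]
    have e2 : 0 < f (j + 1) := by
      simp only [f, if_neg (show j + 1 ≠ m + 1 by omega)]
      positivity
    have e3 := (hf (j + 1) (by omega)).2
    simp only [e1]
    constructor <;> linarith
  · intro a ha b hb e
    rw [← hm] at ha hb
    have ha' := hf a ha
    have hb' := hf b hb
    simp only at e
    have h1 : c a = c b := by
      have k1 : (c a : ℚ) < c b + 1 := by linarith
      have k2 : (c b : ℚ) < c a + 1 := by linarith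
      have k3 : c a < c b + 1 := by exact_mod_cast k1
      have k4 : c b < c a + 1 := by exact_mod_cast k2
      omega
    have h2 : f a = f b := by rw [h1] at e; linarith
    have hm2 : (m + 2 : ℚ) ≠ 0 := by positivity
    simp only [f] at h2
    split_ifs at h2 with k1 k2 k2
    · omega
    · have : b = 0 := by
        have := (div_eq_zero_iff.1 h2.symm).resolve_right hm2
        exact_mod_cast this
      subst k1 this
      simp only [c, if_true, Nat.add_eq_zero_iff, one_ne_zero, and_false, if_false] at h1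
      exact absurd (Fin.ext h1).symm h
    · have : a = 0 := by
        have := (div_eq_zero_iff.1 h2).resolve_right hm2
        exact_mod_cast this
      subst k2 this
      simp only [c, if_true, Nat.add_eq_zero_iff, one_ne_zero, and_false, if_false] at h1
      exact absurd (Fin.ext h1) h
    · have := (div_left_inj' hm2).1 h2
      exact_mod_cast this

/-- rotation of the circle -/
def g0_rot (x : ℚ) : ℚ := if x < 2 then x + 1 else x - 2

theorem g0_rot_lt {a c : ℚ} (ha : 0 ≤ a ∧ a < 3) (hc : 0 ≤ c ∧ c < 3) :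
    g0_rot a < g0_rot c ↔ (a < c ↔ (a < 2 ↔ c < 2)) := by
  unfold g0_rot
  by_cases h1 : a < 2 <;> by_cases h2 : c < 2 <;> simp only [h1, h2, if_true, if_false]
  · simp
  · have k1 : a < c := by linarith
    have k2 : ¬ a + 1 < c - 2 := by linarith [ha.1, hc.2]
    simp [k1, k2]
  · have k1 : ¬ a < c := by linarith
    have k2 : a - 2 < c + 1 := by linarith [ha.2, hc.1]
    simp [k1, k2]
  · simp

theorem g0_rot_ne {a c : ℚ} (ha : 0 ≤ a ∧ a < 3) (hc : 0 ≤ c ∧ c < 3) (h : a ≠ c) :
    g0_rot a ≠ g0_rot c := by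
  unfold g0_rot
  intro e
  split_ifs at e
  · exact h (by linarith)
  · linarith [ha.1, hc.2]
  · linarith [ha.2, hc.1]
  · exact h (by linarith)

theorem g0_c1_rot {a b c d : ℚ} (ha : 0 ≤ a ∧ a < 3) (hb : 0 ≤ b ∧ b < 3) (hc : 0 ≤ c ∧ c < 3)
    (hd : 0 ≤ d ∧ d < 3) (h1 : a ≠ c) (h2 : a ≠ d) (h3 : b ≠ c) (h4 : b ≠ d) :
    c1 (g0_rot a) (g0_rot b) (g0_rot c) (g0_rot d) = c1 a b c d := by
  rw [c1_eq h1 h2 h3 h4, c1_eq (g0_rot_ne ha hc h1) (g0_rot_ne ha hd h2) (g0_rot_ne hb hc h3)
    (g0_rot_ne hb hd h4)]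
  apply if_congr _ rfl rfl
  rw [g0_rot_lt ha hc, g0_rot_lt ha hd, g0_rot_lt hb hc, g0_rot_lt hb hd]
  by_cases q1 : a < c <;> by_cases q2 : b < c <;> by_cases q3 : a < d <;> by_cases q4 : b < d <;>
    by_cases r1 : a < 2 <;> by_cases r2 : b < 2 <;> by_cases r3 : c < 2 <;> by_cases r4 : d < 2 <;>
    simp only [q1, q2, q3, q4, r1, r2, r3, r4] <;> decide

theorem g0_range {τ η : Fin 3} {w : Wd} {p : ℕ → ℚ} (h : Fit τ η w p) {k : ℕ}
    (hk : k ≤ w.length + 1) : 0 ≤ p k ∧ p k < 3 := by
  have hv : ∀ x : Fin 3, (0 : ℚ) ≤ x.val ∧ (x.val : ℚ) + 1 ≤ 3 := fun x =>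
    ⟨by positivity, by exact_mod_cast x.2⟩
  rcases Nat.eq_zero_or_pos k with rfl | h0
  · rw [h.h0]; constructor <;> linarith [hv τ]
  rcases hk.eq_or_lt with rfl | h1
  · rw [h.h1]; constructor <;> linarith [hv η]
  obtain ⟨j, rfl⟩ : ∃ j, k = j + 1 := ⟨k - 1, by omega⟩
  have := h.mem j (w[j]'(by omega)) (List.getElem?_eq_getElem _)
  constructor <;> linarith [hv (w[j]'(by omega))]

theorem g0_fit_rot {τ η : Fin 3} {w : Wd} {p : ℕ → ℚ} (h : Fit τ η w p) :
    Fit (τ + 1) (η + 1) (w.map (· + 1)) (fun k => g0_rot (p k)) ∧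
      X w.length (fun k => g0_rot (p k)) = X w.length p := by
  have hc : ∀ x : Fin 3, (x.val = 0 ∧ (x + 1).val = 1) ∨ (x.val = 1 ∧ (x + 1).val = 2) ∨
      (x.val = 2 ∧ (x + 1).val = 0) := by decide
  have hv : ∀ x : Fin 3, g0_rot x.val = (x + 1).val := by
    intro x
    rcases hc x with ⟨k1, k2⟩ | ⟨k1, k2⟩ | ⟨k1, k2⟩ <;> rw [k1, k2] <;> norm_num [g0_rot]
  refine ⟨⟨?_, ?_, ?_, ?_⟩, ?_⟩
  · simp only [h.h0, hv]
  · simp only [List.length_map, h.h1, hv]
  · intro j x hx
    rw [List.getElem?_map, Option.map_eq_some_iff] at hx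
    obtain ⟨y, hy, rfl⟩ := hx
    have := h.mem j y hy
    unfold g0_rot
    rcases hc y with ⟨k1, k2⟩ | ⟨k1, k2⟩ | ⟨k1, k2⟩ <;> rw [k1] at this <;> rw [k2] <;>
      push_cast at this ⊢ <;> split_ifs <;> constructor <;> linarith [this.1, this.2]
  · intro a ha b hb e
    rw [List.length_map] at ha hb
    by_contra hne
    exact g0_rot_ne (g0_range h ha) (g0_range h hb) (h.ne ha hb hne) e
  · unfold X
    refine sum_congr rfl fun j hj => sum_congr rfl fun i hi => ?_
    rw [mem_range] at hi hj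
    split_ifs with hp
    · exact g0_c1_rot (g0_range h (by omega)) (g0_range h (by omega)) (g0_range h (by omega))
        (g0_range h (by omega)) (h.ne (by omega) (by omega) (by omega))
        (h.ne (by omega) (by omega) (by omega)) (h.ne (by omega) (by omega) (by omega))
        (h.ne (by omega) (by omega) (by omega))
    · rfl

theorem g0_X_eq (m : ℕ) (p : ℕ → ℚ) : X m p = ∑ j ∈ range (m + 1), ∑ i ∈ range (m + 1),
    if i < j ∧ i % 2 = j % 2 then c1 (p i) (p (i + 1)) (p j) (p (j + 1)) else 0 := by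
  unfold X
  refine sum_congr rfl fun j hj => ?_
  rw [mem_range] at hj
  rw [← sum_subset (s₁ := range j) (range_mono hj.le) fun i _ hi => by
    rw [mem_range] at hi
    exact if_neg fun h => hi h.1]
  refine sum_congr rfl fun i hi => ?_
  rw [mem_range] at hi
  simp only [hi, true_and]

theorem g0_fit_rev {τ η : Fin 3} {w : Wd} {p : ℕ → ℚ} (h : Fit τ η w p) :
    Fit η τ w.reverse (fun k => p (w.length + 1 - k)) ∧
      X w.length (fun k => p (w.length + 1 - k)) = X w.length p := by
  refine ⟨⟨?_, ?_, ?_, ?_⟩, ?_⟩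
  · simp only [Nat.sub_zero, h.h1]
  · simp only [List.length_reverse, Nat.sub_self, h.h0]
  · intro j x hx
    have hj : j < w.length := by simpa using (List.getElem?_eq_some_iff.1 hx).1
    rw [List.getElem?_reverse hj] at hx
    have := h.mem _ x hx
    rwa [show w.length - 1 - j + 1 = w.length + 1 - (j + 1) by omega] at this
  · intro a ha b hb e
    rw [List.length_reverse, Set.mem_Iic] at ha hb
    have := h.inj (show w.length + 1 - a ≤ w.length + 1 by omega)
      (show w.length + 1 - b ≤ w.length + 1 by omega) e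
    omega
  · rw [g0_X_eq, g0_X_eq, sum_comm, ← sum_range_reflect]
    refine sum_congr rfl fun j hj => ?_
    rw [← sum_range_reflect]
    refine sum_congr rfl fun i hi => ?_
    rw [mem_range] at hi hj
    have e : (w.length + 1 - 1 - j < w.length + 1 - 1 - i ∧
        (w.length + 1 - 1 - j) % 2 = (w.length + 1 - 1 - i) % 2) ↔ (i < j ∧ i % 2 = j % 2) := by
      omega
    simp only [e]
    split_ifs with hp
    · rw [show w.length + 1 - (w.length + 1 - 1 - j) = j + 1 by omega,
        show w.length + 1 - (w.length + 1 - 1 - j + 1) = j by omega,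
        show w.length + 1 - (w.length + 1 - 1 - i) = i + 1 by omega,
        show w.length + 1 - (w.length + 1 - 1 - i + 1) = i by omega,
        c1_swap_left, c1_swap_right]
      exact c1_symm (h.ne (by omega) (by omega) (by omega))
        (h.ne (by omega) (by omega) (by omega)) (h.ne (by omega) (by omega) (by omega))
        (h.ne (by omega) (by omega) (by omega))
    · rfl

/-- the set of values -/
def g0_S (τ η : Fin 3) (w : Wd) : Set ℕ := {n | ∃ p, Fit τ η w p ∧ X w.length p = n}

theorem g0_S_rot (τ η : Fin 3) (w : Wd) :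
    g0_S τ η w ⊆ g0_S (τ + 1) (η + 1) (w.map (· + 1)) := by
  rintro _ ⟨p, hp, rfl⟩
  exact ⟨_, (g0_fit_rot hp).1, by rw [List.length_map, (g0_fit_rot hp).2]⟩

theorem g0_S_rev (τ η : Fin 3) (w : Wd) : g0_S τ η w ⊆ g0_S η τ w.reverse := by
  rintro _ ⟨p, hp, rfl⟩
  exact ⟨_, (g0_fit_rev hp).1, by rw [List.length_reverse, (g0_fit_rev hp).2]⟩

theorem g0 : StmtG0 := by
  refine ⟨fun τ η w h => ?_, fun τ η w => ?_, fun τ η w => ?_⟩
  · obtain ⟨p, hp⟩ := g0_fit w h
    exact Nat.sInf_mem (s := g0_S τ η w) ⟨_, p, hp, rfl⟩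
  · refine congrArg sInf (Set.Subset.antisymm ?_ (g0_S_rot τ η w))
    have h3 : ∀ x : Fin 3, x + 1 + 1 + 1 = x := by decide
    have := (g0_S_rot (τ + 1) (η + 1) (w.map (· + 1))).trans (g0_S_rot _ _ _)
    have e : ((w.map (· + 1)).map (· + 1)).map (· + 1) = w := by
      rw [List.map_map, List.map_map]
      exact (List.map_congr_left (g := id) fun x _ => h3 x).trans (List.map_id w)
    rwa [h3, h3, e] at this
  · refine congrArg sInf (Set.Subset.antisymm ?_ (g0_S_rev τ η w))
    have := g0_S_rev η τ w.reverse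
    rwa [List.reverse_reverse] at this

end Pool.Agent.MP_d5eec5_gt.H77
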